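import Pool.Agent.Lib.MP_1f45fc_nt.T.Assemble
import Pool.Agent.Lib.MP_1f45fc_nt.TreeA.A0
import Pool.Agent.Lib.MP_1f45fc_nt.TreeA.A1
import Pool.Agent.Lib.MP_1f45fc_nt.TreeA.A2
import Pool.Agent.Lib.MP_1f45fc_nt.TreeA.A3
import Pool.Agent.Lib.MP_1f45fc_nt.TreeA.A4
import Pool.Agent.Lib.MP_1f45fc_nt.TreeA.A5
import Pool.Agent.Lib.MP_1f45fc_nt.TreeA.A6
import Pool.Agent.Lib.MP_1f45fc_nt.TreeA.A7
import Pool.Agent.Lib.MP_1f45fc_nt.TreeA.A8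
import Pool.Agent.Lib.MP_1f45fc_nt.TreeA.A9
import Pool.Agent.Lib.MP_1f45fc_nt.TreeA.A10
import Pool.Agent.Lib.MP_1f45fc_nt.TreeA.A11
import Pool.Agent.Lib.MP_1f45fc_nt.TreeA.A12
import Pool.Agent.Lib.MP_1f45fc_nt.TreeA.A13
import Pool.Agent.Lib.MP_1f45fc_nt.TreeA.A14
import Pool.Agent.Lib.MP_1f45fc_nt.TreeA.A15
import Pool.Agent.Lib.MP_1f45fc_nt.TreeA.A16
import Pool.Agent.Lib.MP_1f45fc_nt.TreeA.A17
import Pool.Agent.Lib.MP_1f45fc_nt.TreeA.A18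
import Pool.Agent.Lib.MP_1f45fc_nt.TreeA.A19
import Pool.Agent.Lib.MP_1f45fc_nt.TreeA.A20
import Pool.Agent.Lib.MP_1f45fc_nt.TreeA.A21
import Pool.Agent.Lib.MP_1f45fc_nt.TreeA.A22
import Pool.Agent.Lib.MP_1f45fc_nt.TreeA.A23
import Pool.Agent.Lib.MP_1f45fc_nt.TreeA.A24
import Pool.Agent.Lib.MP_1f45fc_nt.TreeA.A25
import Pool.Agent.Lib.MP_1f45fc_nt.TreeA.A26
import Pool.Agent.Lib.MP_1f45fc_nt.TreeA.A27
import Pool.Agent.Lib.MP_1f45fc_nt.TreeA.A28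
import Pool.Agent.Lib.MP_1f45fc_nt.TreeA.A29
import Pool.Agent.Lib.MP_1f45fc_nt.TreeA.A30
import Pool.Agent.Lib.MP_1f45fc_nt.TreeA.A31
import Pool.Agent.Lib.MP_1f45fc_nt.TreeA.A32
import Pool.Agent.Lib.MP_1f45fc_nt.TreeA.A33
import Pool.Agent.Lib.MP_1f45fc_nt.TreeA.A34
import Pool.Agent.Lib.MP_1f45fc_nt.TreeA.A35
import Pool.Agent.Lib.MP_1f45fc_nt.TreeA.A36
import Pool.Agent.Lib.MP_1f45fc_nt.TreeA.A37
import Pool.Agent.Lib.MP_1f45fc_nt.TreeA.A38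
import Pool.Agent.Lib.MP_1f45fc_nt.TreeA.A39
import Pool.Agent.Lib.MP_1f45fc_nt.TreeA.A40
import Pool.Agent.Lib.MP_1f45fc_nt.TreeA.A41
import Pool.Agent.Lib.MP_1f45fc_nt.TreeA.A42
import Pool.Agent.Lib.MP_1f45fc_nt.TreeA.A43
import Pool.Agent.Lib.MP_1f45fc_nt.TreeA.A44
import Pool.Agent.Lib.MP_1f45fc_nt.TreeA.A45
import Pool.Agent.Lib.MP_1f45fc_nt.TreeA.A46
import Pool.Agent.Lib.MP_1f45fc_nt.TreeA.A47
import Pool.Agent.Lib.MP_1f45fc_nt.TreeA.AM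

set_option autoImplicit false

namespace Pool.Agent.MP1f45fc.T.TreeA

def Aown : List Goal := [⟨[0, 0, 0, 0, 0, 0, 0, 0, 0, 0, 0, 0, 0, 0, 0, 0, 0, 0, 0, 0, 0, 0, 0, 0, 0, 0, 0, 0], 0, [], 8618253967, 8703398820⟩]

def AR : List Goal :=
  A0r ++
  (A1r ++
  (A2r ++
  (A3r ++
  (A4r ++
  (A5r ++
  (A6r ++
  (A7r ++
  (A8r ++
  (A9r ++
  (A10r ++
  (A11r ++
  (A12r ++
  (A13r ++
  (A14r ++
  (A15r ++
  (A16r ++
  (A17r ++
  (A18r ++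
  (A19r ++
  (A20r ++
  (A21r ++
  (A22r ++
  (A23r ++
  (A24r ++
  (A25r ++
  (A26r ++
  (A27r ++
  (A28r ++
  (A29r ++
  (A30r ++
  (A31r ++
  (A32r ++
  (A33r ++
  (A34r ++
  (A35r ++
  (A36r ++
  (A37r ++
  (A38r ++
  (A39r ++
  (A40r ++
  (A41r ++
  (A42r ++
  (A43r ++
  (A44r ++
  (A45r ++
  (A46r ++
  (A47r)))))))))))))))))))))))))))))))))))))))))))))))

def AC : List Goal :=
  A0o ++
  (A1o ++
  (A2o ++
  (A3o ++
  (A4o ++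
  (A5o ++
  (A6o ++
  (A7o ++
  (A8o ++
  (A9o ++
  (A10o ++
  (A11o ++
  (A12o ++
  (A13o ++
  (A14o ++
  (A15o ++
  (A16o ++
  (A17o ++
  (A18o ++
  (A19o ++
  (A20o ++
  (A21o ++
  (A22o ++
  (A23o ++
  (A24o ++
  (A25o ++
  (A26o ++
  (A27o ++
  (A28o ++
  (A29o ++
  (A30o ++
  (A31o ++
  (A32o ++
  (A33o ++
  (A34o ++
  (A35o ++
  (A36o ++
  (A37o ++
  (A38o ++
  (A39o ++
  (A40o ++
  (A41o ++
  (A42o ++
  (A43o ++
  (A44o ++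
  (A45o ++
  (A46o ++
  (A47o)))))))))))))))))))))))))))))))))))))))))))))))

def Aouts : List Goal := Aown ++ AC

theorem A_groups : Imp 0 2 AR AC :=
    Imp.app (Imp.of_check A0_ok (Or.inl rfl) le_rfl) (
    Imp.app (Imp.of_check A1_ok (Or.inl rfl) le_rfl) (
    Imp.app (Imp.of_check A2_ok (Or.inl rfl) le_rfl) (
    Imp.app (Imp.of_check A3_ok (Or.inl rfl) le_rfl) (
    Imp.app (Imp.of_check A4_ok (Or.inl rfl) le_rfl) (
    Imp.app (Imp.of_check A5_ok (Or.inl rfl) le_rfl) (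
    Imp.app (Imp.of_check A6_ok (Or.inl rfl) le_rfl) (
    Imp.app (Imp.of_check A7_ok (Or.inl rfl) le_rfl) (
    Imp.app (Imp.of_check A8_ok (Or.inl rfl) le_rfl) (
    Imp.app (Imp.of_check A9_ok (Or.inl rfl) le_rfl) (
    Imp.app (Imp.of_check A10_ok (Or.inl rfl) le_rfl) (
    Imp.app (Imp.of_check A11_ok (Or.inl rfl) le_rfl) (
    Imp.app (Imp.of_check A12_ok (Or.inl rfl) le_rfl) (
    Imp.app (Imp.of_check A13_ok (Or.inl rfl) le_rfl) (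
    Imp.app (Imp.of_check A14_ok (Or.inl rfl) le_rfl) (
    Imp.app (Imp.of_check A15_ok (Or.inl rfl) le_rfl) (
    Imp.app (Imp.of_check A16_ok (Or.inl rfl) le_rfl) (
    Imp.app (Imp.of_check A17_ok (Or.inl rfl) le_rfl) (
    Imp.app (Imp.of_check A18_ok (Or.inl rfl) le_rfl) (
    Imp.app (Imp.of_check A19_ok (Or.inl rfl) le_rfl) (
    Imp.app (Imp.of_check A20_ok (Or.inl rfl) le_rfl) (
    Imp.app (Imp.of_check A21_ok (Or.inl rfl) le_rfl) (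
    Imp.app (Imp.of_check A22_ok (Or.inl rfl) le_rfl) (
    Imp.app (Imp.of_check A23_ok (Or.inl rfl) le_rfl) (
    Imp.app (Imp.of_check A24_ok (Or.inl rfl) le_rfl) (
    Imp.app (Imp.of_check A25_ok (Or.inl rfl) le_rfl) (
    Imp.app (Imp.of_check A26_ok (Or.inl rfl) le_rfl) (
    Imp.app (Imp.of_check A27_ok (Or.inl rfl) le_rfl) (
    Imp.app (Imp.of_check A28_ok (Or.inl rfl) le_rfl) (
    Imp.app (Imp.of_check A29_ok (Or.inl rfl) le_rfl) (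
    Imp.app (Imp.of_check A30_ok (Or.inl rfl) le_rfl) (
    Imp.app (Imp.of_check A31_ok (Or.inl rfl) le_rfl) (
    Imp.app (Imp.of_check A32_ok (Or.inl rfl) le_rfl) (
    Imp.app (Imp.of_check A33_ok (Or.inl rfl) le_rfl) (
    Imp.app (Imp.of_check A34_ok (Or.inl rfl) le_rfl) (
    Imp.app (Imp.of_check A35_ok (Or.inl rfl) le_rfl) (
    Imp.app (Imp.of_check A36_ok (Or.inl rfl) le_rfl) (
    Imp.app (Imp.of_check A37_ok (Or.inl rfl) le_rfl) (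
    Imp.app (Imp.of_check A38_ok (Or.inl rfl) le_rfl) (
    Imp.app (Imp.of_check A39_ok (Or.inl rfl) le_rfl) (
    Imp.app (Imp.of_check A40_ok (Or.inl rfl) le_rfl) (
    Imp.app (Imp.of_check A41_ok (Or.inl rfl) le_rfl) (
    Imp.app (Imp.of_check A42_ok (Or.inl rfl) le_rfl) (
    Imp.app (Imp.of_check A43_ok (Or.inl rfl) le_rfl) (
    Imp.app (Imp.of_check A44_ok (Or.inl rfl) le_rfl) (
    Imp.app (Imp.of_check A45_ok (Or.inl rfl) le_rfl) (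
    Imp.app (Imp.of_check A46_ok (Or.inl rfl) le_rfl) (
    Imp.of_check A47_ok (Or.inl rfl) le_rfl)))))))))))))))))))))))))))))))))))))))))))))))

theorem A_imp : Imp 0 2 AMr Aouts :=
  (Imp.of_check AM_ok (Or.inl rfl) le_rfl).glue A_groups (by decide +kernel)

end Pool.Agent.MP1f45fc.T.TreeA
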